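import Pool.Agent.Run7.h991.MU.Iface

set_option autoImplicit false

open MeasureTheory Metric

namespace H991.MU

namespace MainAux

theorem norm_exp_lin (l₁ l₂ : ℝ) (z w : ℂ) :
    ‖Complex.exp ((l₁ : ℂ) * z + (l₂ : ℂ) * w)‖ = Real.exp (l₁ * z.re + l₂ * w.re) := by
  rw [Complex.norm_exp]
  simp

theorem F_le {F : ℂ × ℂ → ℂ} {A : ℝ → ℝ → ℝ} (hExp : IsExp F A) (z w : ℂ) (hz : 0 < z.re)
    (hw : 0 < w.re) : ‖F (z, w)‖ ≤ Real.exp (-(A z.re w.re)) := by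
  have h := (hExp z.re w.re hz hw).1 1 one_pos z.im w.im
  simpa using h

theorem half {R x κ u : ℝ} (hR : 0 < R) (h : |u - R * x| ≤ 8 * (κ * R)) (hk : 8 * κ ≤ x / 2) :
    R * x / 2 ≤ u := by
  have h2 := (abs_le.1 h).1
  have h3 : 8 * κ * R ≤ x / 2 * R := by gcongr
  linarith

theorem ratio {x₀ y₀ κ R τ s u v : ℝ} (hx₀ : 0 < x₀) (hy₀ : 0 < y₀) (hy1 : y₀ ≤ 1) (hτ : 0 < τ)
    (hxτ : τ / 2 ≤ x₀) (hκ : 0 < κ) (hR : 0 < R) (hs : 16 * (1 + 2 / τ) ≤ s)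
    (hu : |u - R * x₀| ≤ 8 * (κ * R)) (hv : |v - R * y₀| ≤ 8 * (κ * R)) (hu2 : R * x₀ / 2 ≤ u) :
    |x₀ * v / u - y₀| ≤ s * κ := by
  have hu0 : 0 < u := lt_of_lt_of_le (by positivity) hu2
  have e1 : x₀ * v / u - y₀ = (x₀ * (v - R * y₀) - y₀ * (u - R * x₀)) / u := by
    field_simp
    ring
  rw [e1, abs_div, abs_of_pos hu0, div_le_iff₀ hu0]
  have h1 : |x₀ * (v - R * y₀) - y₀ * (u - R * x₀)| ≤ (x₀ + y₀) * (8 * (κ * R)) := by
    calc |x₀ * (v - R * y₀) - y₀ * (u - R * x₀)|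
        ≤ |x₀ * (v - R * y₀)| + |y₀ * (u - R * x₀)| := abs_sub _ _
      _ = x₀ * |v - R * y₀| + y₀ * |u - R * x₀| := by
          rw [abs_mul, abs_mul, abs_of_pos hx₀, abs_of_pos hy₀]
      _ ≤ x₀ * (8 * (κ * R)) + y₀ * (8 * (κ * R)) := by gcongr
      _ = _ := by ring
  refine h1.trans ?_
  have h2 : (x₀ + y₀) ≤ x₀ * (1 + 2 / τ) := by
    have : y₀ ≤ x₀ * (2 / τ) := by
      have h3 : 1 ≤ x₀ * (2 / τ) := by
        have : τ / 2 * (2 / τ) ≤ x₀ * (2 / τ) := by gcongr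
        have h4 : τ / 2 * (2 / τ) = 1 := by field_simp
        linarith
      linarith
    linarith
  have hsκ : 16 * (1 + 2 / τ) * κ ≤ s * κ := by gcongr
  have h5 : s * κ * (R * x₀ / 2) ≤ s * κ * u := by
    apply mul_le_mul_of_nonneg_left hu2
    have : 0 < 16 * (1 + 2 / τ) * κ := by positivity
    linarith
  refine le_trans ?_ h5
  have h6 : 16 * (1 + 2 / τ) * κ * (R * x₀ / 2) ≤ s * κ * (R * x₀ / 2) := by gcongr
  refine le_trans ?_ h6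
  have h7 : (x₀ + y₀) * (8 * (κ * R)) ≤ x₀ * (1 + 2 / τ) * (8 * (κ * R)) := by gcongr
  refine h7.trans (le_of_eq ?_)
  ring

end MainAux

open MainAux

theorem t_MAIN (hAFUN : S_AFUN) (hCHORD : S_CHORD) (hTEL : S_TEL) (hRAYA : S_RAYA) (hLOC : S_LOC)
    (hCOUNT : S_COUNT) : S_MAIN := by
  intro Ω ε δ hε hε1 hδ hΩ hdens F hBH hF0
  by_contra hcon
  push Not at hcon
  obtain ⟨A, hExp, hConc⟩ := hAFUN F hBH hcon
  obtain ⟨c, ρ₀, hc, hρ₀, hloc⟩ := hLOC (δ / 16) (by positivity)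
  obtain ⟨η, hη⟩ : ∃ η, η = c / 2 := ⟨_, rfl⟩
  have hη0 : 0 < η := by rw [hη]; positivity
  obtain ⟨τ, hτ0, hτ1, hτ2⟩ : ∃ τ : ℝ, 0 < τ ∧ τ ≤ 1 ∧ τ ^ 2 ≤ δ * ε / 4 := by
    refine ⟨min 1 (δ * ε / 4), lt_min one_pos (by positivity), min_le_left _ _, ?_⟩
    have h1 : min 1 (δ * ε / 4) ≤ 1 := min_le_left _ _
    have h2 : min 1 (δ * ε / 4) ≤ δ * ε / 4 := min_le_right _ _
    have h3 : 0 < min 1 (δ * ε / 4) := lt_min one_pos (by positivity)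
    nlinarith
  obtain ⟨s, hs⟩ : ∃ s : ℕ, 16 * (1 + 2 / τ) ≤ (s : ℝ) := exists_nat_ge _
  have hs16 : (16 : ℝ) ≤ s := by
    have : 0 < 2 / τ := by positivity
    linarith
  have hs0 : (0 : ℝ) < s := by linarith
  have hs1 : 1 ≤ s := by
    have : (1 : ℝ) ≤ s := by linarith
    exact_mod_cast this
  have hετ : 0 < ε * τ := by positivity
  obtain ⟨Λ, hΛ, htel⟩ := hTEL A hConc (ε * τ / 4) (by positivity)
  obtain ⟨Bd, hBd⟩ : ∃ Bd, Bd = (s : ℝ) ^ 2 * Λ / η + 1 := ⟨_, rfl⟩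
  have hBd0 : 0 < Bd := by rw [hBd]; positivity
  obtain ⟨κ, hκ0, hκ1, hκ2, hκ3⟩ : ∃ κ : ℝ, 0 < κ ∧ κ ≤ ε * τ / 64 ∧ s * κ ≤ ε * τ / 8 ∧
      κ * Bd ≤ δ / 32 := by
    refine ⟨min (ε * τ / 64) (min (ε * τ / 8 / s) (δ / 32 / Bd)), ?_, min_le_left _ _, ?_, ?_⟩
    · refine lt_min (by positivity) (lt_min (by positivity) (by positivity))
    · have h1 : min (ε * τ / 64) (min (ε * τ / 8 / s) (δ / 32 / Bd)) ≤ ε * τ / 8 / s :=
        (min_le_right _ _).trans (min_le_left _ _)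
      calc (s : ℝ) * min (ε * τ / 64) (min (ε * τ / 8 / s) (δ / 32 / Bd))
          ≤ s * (ε * τ / 8 / s) := by gcongr
        _ = ε * τ / 8 := by field_simp
    · have h1 : min (ε * τ / 64) (min (ε * τ / 8 / s) (δ / 32 / Bd)) ≤ δ / 32 / Bd :=
        (min_le_right _ _).trans (min_le_right _ _)
      calc min (ε * τ / 64) (min (ε * τ / 8 / s) (δ / 32 / Bd)) * Bd
          ≤ δ / 32 / Bd * Bd := by gcongr
        _ = δ / 32 := by field_simp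
  have hετ1 : ε * τ ≤ τ := by nlinarith
  have hκle1 : κ ≤ 1 := by linarith
  obtain ⟨a, b, hnb, ha1, ha2, hb1, hb2, hRR⟩ := hCOUNT Ω ε δ τ κ Bd
    (fun a b => η * κ < D2 A (a * κ) (b * κ) (s * κ)) hε hε1 hδ hτ0 hκ0 hκle1 hBd0 hτ2
    (by linarith) hκ3 hΩ hdens (by
      intro a ha1 ha2 B hB
      have h1 := htel (a * κ) κ η s (by linarith) ha2 hκ0 hη0 hs1 B (by
        intro b hb
        obtain ⟨h2, h3⟩ := hB b hb
        exact ⟨by linarith, h3⟩)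
      rw [hBd]
      have h4 : (B.card : ℝ) ≤ (s : ℝ) ^ 2 * Λ / η := by
        rw [le_div_iff₀ hη0]; exact h1
      linarith)
  obtain ⟨x₀, hx₀⟩ : ∃ x₀ : ℝ, x₀ = a * κ := ⟨_, rfl⟩
  obtain ⟨y₀, hy₀⟩ : ∃ y₀ : ℝ, y₀ = b * κ := ⟨_, rfl⟩
  rw [← hx₀] at ha1 ha2
  rw [← hy₀] at hb1 hb2
  simp only [← hx₀, ← hy₀] at hnb hRR
  have hx0 : 0 < x₀ := by linarith
  have hy0 : 0 < y₀ := by linarith
  obtain ⟨l₁, l₂, hl, hl2⟩ := hCHORD A hConc x₀ y₀ (s * κ) hx0 (by positivity) (by linarith)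
  have hD2 : D2 A x₀ y₀ (s * κ) ≤ η * κ := not_lt.1 hnb
  obtain ⟨κ', hκ'0, hκ'1, hκ'2⟩ : ∃ κ' : ℝ, 0 < κ' ∧ κ' ≤ κ ∧ (|l₁| + |l₂|) * κ' ≤ c * κ / 4 := by
    have hpos : 0 < |l₁| + |l₂| + 1 := by positivity
    refine ⟨min κ (c * κ / 4 / (|l₁| + |l₂| + 1)), lt_min hκ0 (by positivity), min_le_left _ _, ?_⟩
    calc (|l₁| + |l₂|) * min κ (c * κ / 4 / (|l₁| + |l₂| + 1))
        ≤ (|l₁| + |l₂| + 1) * (c * κ / 4 / (|l₁| + |l₂| + 1)) := by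
          apply mul_le_mul (by linarith) (min_le_right _ _) (le_of_lt (lt_min hκ0 (by positivity)))
            hpos.le
      _ = c * κ / 4 := by field_simp
  apply hRAYA F A hBH hExp hConc x₀ y₀ (c * κ / 2) κ' hx0 hy0 (by positivity) hκ'0
  intro R₀
  obtain ⟨R, hR, Z, hZΩ, hZ1, hZ2⟩ := hRR (max R₀ (max 1 (ρ₀ / κ)))
  have hR0 : R₀ ≤ R := (le_max_left _ _).trans hR
  have hR1 : 1 ≤ R := ((le_max_left _ _).trans (le_max_right _ _)).trans hR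
  have hRρ : ρ₀ / κ ≤ R := ((le_max_right _ _).trans (le_max_right _ _)).trans hR
  have hRpos : 0 < R := by linarith
  have hρ : ρ₀ ≤ κ * R := by
    rw [div_le_iff₀ hκ0] at hRρ
    linarith
  have hxk : 8 * κ ≤ x₀ / 2 := by linarith
  have hyk : 8 * κ ≤ y₀ / 2 := by linarith
  -- the balls
  have hre : ∀ (z : ℂ) (x r : ℝ), ‖z - (x : ℂ)‖ ≤ r → |z.re - x| ≤ r := by
    intro z x r h
    have h1 := Complex.abs_re_le_norm (z - (x : ℂ))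
    simp only [Complex.sub_re, Complex.ofReal_re] at h1
    exact h1.trans h
  have hbx : ∀ z ∈ ball (((R * x₀ : ℝ) : ℂ)) (8 * (κ * R)), |z.re - R * x₀| ≤ 8 * (κ * R) ∧
      R * x₀ / 2 ≤ z.re := by
    intro z hz
    rw [mem_ball, dist_eq_norm] at hz
    have h1 := hre z (R * x₀) _ hz.le
    exact ⟨h1, half hRpos h1 hxk⟩
  have hby : ∀ z ∈ ball (((R * y₀ : ℝ) : ℂ)) (8 * (κ * R)), |z.re - R * y₀| ≤ 8 * (κ * R) ∧
      R * y₀ / 2 ≤ z.re := by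
    intro z hz
    rw [mem_ball, dist_eq_norm] at hz
    have h1 := hre z (R * y₀) _ hz.le
    exact ⟨h1, half hRpos h1 hyk⟩
  have hRx : 0 < R * x₀ / 2 := by positivity
  have hRy : 0 < R * y₀ / 2 := by positivity
  have hsub : ball (((R * x₀ : ℝ) : ℂ)) (8 * (κ * R)) ×ˢ ball (((R * y₀ : ℝ) : ℂ)) (8 * (κ * R))
      ⊆ RH2 := by
    rintro ⟨z, w⟩ ⟨hz, hw⟩
    exact ⟨hRx.trans_le (hbx z hz).2, hRy.trans_le (hby w hw).2⟩
  have hmain := hloc (κ * R) (R * x₀) (R * y₀)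
    (fun p => F p * Complex.exp ((l₁ : ℂ) * p.1 + (l₂ : ℂ) * p.2)) Z hρ
    ((hBH.1.mono hsub).mul (by fun_prop)) (by
      rintro ⟨z, w⟩ hp
      obtain ⟨hz, hw⟩ := hp
      have h1 := hbx z hz
      have h2 := hby w hw
      have hzr : 0 < z.re := hRx.trans_le h1.2
      have hwr : 0 < w.re := hRy.trans_le h2.2
      show ‖F (z, w) * Complex.exp ((l₁ : ℂ) * z + (l₂ : ℂ) * w)‖ ≤ 1
      rw [norm_mul, norm_exp_lin]
      have h3 := F_le hExp z w hzr hwr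
      have h4 := hl2 z.re w.re hzr hwr
        (ratio hx0 hy0 hb2 hτ0 ha1 hκ0 hRpos hs h1.1 h2.1 h1.2)
      calc ‖F (z, w)‖ * Real.exp (l₁ * z.re + l₂ * w.re)
          ≤ Real.exp (-(A z.re w.re)) * Real.exp (l₁ * z.re + l₂ * w.re) := by gcongr
        _ = Real.exp (-(A z.re w.re) + (l₁ * z.re + l₂ * w.re)) := (Real.exp_add _ _).symm
        _ ≤ 1 := Real.exp_le_one_iff.2 (by linarith)) (by
      intro p hp
      obtain ⟨h1, h2, h3, h4⟩ := hZ1 p hp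
      refine ⟨h1, h2, h3, h4, ?_⟩
      show F ((p.1 : ℂ), (p.2 : ℂ)) * _ = 0
      rw [hF0 p (hZΩ hp), zero_mul]) hZ2
  refine ⟨R, hR0, ?_⟩
  intro z w hz hw
  have hκR : κ' * R ≤ κ * R := by gcongr
  have hz' : z ∈ closedBall (((R * x₀ : ℝ) : ℂ)) (κ * R) := by
    rw [mem_closedBall, dist_eq_norm]; exact hz.trans hκR
  have hw' : w ∈ closedBall (((R * y₀ : ℝ) : ℂ)) (κ * R) := by
    rw [mem_closedBall, dist_eq_norm]; exact hw.trans hκR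
  have h5 : ‖F (z, w) * Complex.exp ((l₁ : ℂ) * z + (l₂ : ℂ) * w)‖ ≤ Real.exp (-(c * (κ * R))) :=
    hmain z hz' w hw'
  rw [norm_mul, norm_exp_lin] at h5
  have h6 : ‖F (z, w)‖ = ‖F (z, w)‖ * Real.exp (l₁ * z.re + l₂ * w.re) *
      Real.exp (-(l₁ * z.re + l₂ * w.re)) := by
    rw [mul_assoc, ← Real.exp_add]
    simp
  rw [h6]
  calc ‖F (z, w)‖ * Real.exp (l₁ * z.re + l₂ * w.re) * Real.exp (-(l₁ * z.re + l₂ * w.re))
      ≤ Real.exp (-(c * (κ * R))) * Real.exp (-(l₁ * z.re + l₂ * w.re)) := by gcongr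
    _ = Real.exp (-(c * (κ * R)) + -(l₁ * z.re + l₂ * w.re)) := (Real.exp_add _ _).symm
    _ ≤ Real.exp (-((A x₀ y₀ + c * κ / 2) * R)) := by
      apply Real.exp_le_exp.2
      have h7 := hre z _ _ hz
      have h8 := hre w _ _ hw
      have h9 : -(|l₁| * (κ' * R)) ≤ l₁ * (z.re - R * x₀) := by
        have : |l₁ * (z.re - R * x₀)| ≤ |l₁| * (κ' * R) := by
          rw [abs_mul]; gcongr
        exact (abs_le.1 this).1
      have h10 : -(|l₂| * (κ' * R)) ≤ l₂ * (w.re - R * y₀) := by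
        have : |l₂ * (w.re - R * y₀)| ≤ |l₂| * (κ' * R) := by
          rw [abs_mul]; gcongr
        exact (abs_le.1 this).1
      have h11 : (|l₁| + |l₂|) * κ' * R ≤ c * κ / 4 * R := by gcongr
      have h12 : A x₀ y₀ - c * κ / 4 ≤ l₁ * x₀ + l₂ * y₀ := by
        rw [hη] at hD2
        linarith
      have h13 : (A x₀ y₀ - c * κ / 4) * R ≤ (l₁ * x₀ + l₂ * y₀) * R := by gcongr
      linarith

end H991.MU
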